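import Pool.Agent.MWGY.StmtsA
import Pool.Agent.Helper44_MWGQ.KAR

/-!
# Squad MWGY, row KAG (MP_23468a_al): `A0` and `Es 1` imply the identity kappa with a gap
(twin of MWGQ.KAR, author helper44; his lemmas are imported)
-/

set_option autoImplicit false

namespace Pool.Agent.MWGY.H77

open Pool.Agent.Helper14_MV
open Pool.Agent.Helper2_MV (RR)
open Pool.Agent.MWGN (nn Nm WC WT Tau Ns nl sg gh)
open Pool.Agent.MWGQ (pw bd kr krl Rs Gn E0 A0 P0)
open Pool.Agent.MWGX (gL gR Ex OX Dl)
open Pool.Agent.MWGR (It Es FE)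
open Pool.Agent.MWGQ.H44 (In ins in_tail flat_z pw_succ)
open Pool.Agent.MWGY

/-- substitution of four words -/
def s4 (X A B D : List ℕ) (i : ℕ) : List ℕ :=
  if i = 0 then X else if i = 1 then A else if i = 2 then B else D

/-- `Es 1` with words -/
theorem esw {n : ℕ} {β : FIC} (h : Es n 1 (RR β)) (X A B D r : List ℕ) :
    RR β (gL n 1 X A B ++ (D ++ (A ++ (B ++ r)))) (gR n 1 X A B ++ (D ++ (A ++ (B ++ r)))) := by
  have h1 := (RR.sub (s4 X A B D) h).append (RR.refl r)
  have f0 : s4 X A B D 0 = X := rfl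
  have f1 : s4 X A B D 1 = A := rfl
  have f2 : s4 X A B D 2 = B := rfl
  have f3 : s4 X A B D 3 = D := rfl
  have fz : ∀ k : ℕ, (List.replicate k 0).flatMap (s4 X A B D) = pw k X := fun k => by
    have := flat_z k (s4 X A B D)
    rw [f0] at this
    exact this
  simp only [List.flatMap_append, List.flatMap_cons, List.flatMap_nil, fz, f1, f2, f3,
    List.append_nil, List.append_assoc] at h1
  simp only [gL, gR, List.append_assoc]
  exact h1

theorem in_gL (n : ℕ) (X A B D : List ℕ) : In A (gL n 1 X A B ++ D) := by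
  refine ⟨pw n X, pw (n + 1) X ++ (B ++ (pw n X ++ D)), ?_⟩
  simp only [gL, List.append_assoc]

theorem in_gR (n : ℕ) (X A B D : List ℕ) : In A (gR n 1 X A B ++ D) := by
  refine ⟨pw (n + 1) X ++ (B ++ pw (n + (n - 1) * 1) X), pw (n + 1) X ++ D, ?_⟩
  simp only [gR, List.append_assoc]

theorem kag (hp : Pool.Agent.MWGQ.PwxStmt) : KagStmt := by
  intro n β h hA hE m τ hτ X A B D E S L C
  have hR : ∀ i ≤ m, In (L i) (B ++ (E ++ τ.flatMap (fun i => S i ++ L i))) := fun i hi =>
    ((in_tail ((hτ.2 i).2 hi)).left E).left B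
  have h1 := ins hp h hA (G := gL n 1 X A B ++ D) (X := A) L C (in_gL n X A B D) m _ hR
  have h2 := ins hp h hA (G := gR n 1 X A B ++ D) (X := A) L C (in_gR n X A B D) m _ hR
  have h3 := esw hE X A B (D ++ (A ++ (bd n L C m ++ (L m ++ pw (n - 1) A))))
    (E ++ τ.flatMap (fun i => S i ++ L i))
  have e : pw n A = pw (n - 1) A ++ A := by
    have hn := h.pos
    have e1 : n = n - 1 + 1 := by omega
    conv_lhs => rw [e1]
    rw [pw_succ]
  unfold kr
  rw [e] at h1 h2
  simp only [List.append_assoc] at h1 h2 h3 ⊢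
  exact β.trans h1 (β.trans h3 (β.symm h2))

end Pool.Agent.MWGY.H77
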